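import Pool.Agent.Y903.TX.Ex
import Pool.Agent.Y903.TX.Low

/-!
# Turán's `(3,4)`-problem: exact results for the order-size pairs `(5,4)` and `(6,6)`

Turán's conjecture (in its exact form) says that a `K_4^3`-free 3-graph on `n` vertices has at most
`t(n)` edges, the number of edges of Turán's construction with balanced classes. Here the exact bound
is proved for large `n` and all `K_4^3`-free 3-graphs in which fewer than `c n³` sets of five
vertices span exactly four edges, and for all those in which fewer than `c n⁴` sets of six vertices
span exactly six edges. The 3-graphs with `t(n)` edges in the first class come from orientations of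
the pairs between the classes (Fon-der-Flaass); in the second class only Turán's construction is
left. In Turán's construction there are no such sets of five or six vertices.

Outline: stability (few sets of this kind and about `t(n)` edges make the 3-graph close to Turán's
construction) is known from the order-size pairs `(5,4)` and `(6,6)`. Vertices of small degree are
deleted one after the other; this would increase the surplus over `t(m)` and end in a contradiction
with the asymptotic bound. When all degrees are large, the link of every vertex is close to the link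
in Turán's construction (else there are many sets of five or six vertices with exactly four or six
edges through this vertex), and any two vertices are in few edges inside the classes (else the
codegree yields `c n³` or `c n⁴` such sets). Then the bound for 3-graphs near Turán's construction
applies.
-/

set_option autoImplicit false
set_option maxRecDepth 100000
open Finset

namespace Pool.Agent.Results.MP_466853_co.ExactOrderSize

/-- No four vertices have all their four triples in `H`. -/
def K43Free {n : ℕ} (H : Finset (Finset (Fin n))) : Prop :=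
  ∀ S : Finset (Fin n), S.card = 4 → ∃ e ⊆ S, e.card = 3 ∧ e ∉ H

/-- Turán's construction for the classes of `g`: the triples which meet all three classes, and the
triples with two vertices in a class and one vertex in the (cyclically) next class. -/
def turanGraph {n : ℕ} (g : Fin n → Fin 3) : Finset (Finset (Fin n)) :=
  univ.filter fun e => e.card = 3 ∧ ((∀ k, ∃ x ∈ e, g x = k) ∨
    ∃ k, (e.filter fun x => g x = k).card = 2 ∧ (e.filter fun x => g x = k + 1).card = 1)

/-- The number `t(n)` of edges of Turán's construction on `n` vertices with classes of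
`⌊n/3⌋`, `⌊(n+1)/3⌋`, `⌊(n+2)/3⌋` vertices. -/
def turanNumber (n : ℕ) : ℕ :=
  n / 3 * ((n + 1) / 3) * ((n + 2) / 3) + (n / 3).choose 2 * ((n + 1) / 3) +
    ((n + 1) / 3).choose 2 * ((n + 2) / 3) + ((n + 2) / 3).choose 2 * (n / 3)

/-- `A` is an orientation of all pairs of vertices in different classes of `g`. -/
def Orients {n : ℕ} (g : Fin n → Fin 3) (A : Fin n → Fin n → Prop) : Prop :=
  ∀ x y, (A x y → g x ≠ g y) ∧ (g x ≠ g y → (A x y ↔ ¬ A y x))

/-- `H` is the 3-graph of the orientation `A`: its edges are the triples `e` which do not lie in one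
class and in which no vertex sends arcs to both other vertices. -/
def IsOrientationGraph {n : ℕ} (g : Fin n → Fin 3) (A : Fin n → Fin n → Prop)
    (H : Finset (Finset (Fin n))) : Prop :=
  ∀ e : Finset (Fin n), e ∈ H ↔ e.card = 3 ∧ (∃ x ∈ e, ∃ y ∈ e, g x ≠ g y) ∧
    ∀ x ∈ e, ∀ y ∈ e, ∀ z ∈ e, A x y → A x z → y = z

/-- The number of sets of `k` vertices which span exactly `m` edges of `H`. -/
def spans {n : ℕ} (H : Finset (Finset (Fin n))) (k m : ℕ) : ℕ :=
  (((univ : Finset (Fin n)).powersetCard k).filter fun S =>
    (H.filter fun e => e ⊆ S).card = m).card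

/-- There are `c > 0` and `n0` such that for every `K_4^3`-free 3-graph `H` on `n ≥ n0` vertices with
at least `t(n)` edges: either `H` has `t(n)` edges and is the 3-graph of an orientation, or more than
`c n³` sets of five vertices span exactly four edges; and either `H` is Turán's construction, with
`t(n)` edges, or more than `c n⁴` sets of six vertices span exactly six edges. Turán's construction
contains neither kind of set and attains `t(n)`. -/
theorem result :
    (∃ c : ℝ, 0 < c ∧ ∃ n0 : ℕ, ∀ n, n0 ≤ n → ∀ H : Finset (Finset (Fin n)),
      (∀ e ∈ H, e.card = 3) → K43Free H → turanNumber n ≤ H.card →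
      ((H.card = turanNumber n ∧ ∃ g A, Orients g A ∧ IsOrientationGraph g A H) ∨
        c * (n : ℝ) ^ 3 < (spans H 5 4 : ℝ)) ∧
      ((H.card = turanNumber n ∧ ∃ g, H = turanGraph g) ∨
        c * (n : ℝ) ^ 4 < (spans H 6 6 : ℝ))) ∧
    (∀ (n : ℕ) (g : Fin n → Fin 3), K43Free (turanGraph g) ∧ spans (turanGraph g) 5 4 = 0 ∧
      spans (turanGraph g) 6 6 = 0) ∧
    ∀ n : ℕ, ∃ g : Fin n → Fin 3, (turanGraph g).card = turanNumber n := by
  have hsp : ∀ {n : ℕ} (H : Finset (Finset (Fin n))) (k m : ℕ),
      Pool.Agent.TH773.Turan34.spans H k m = spans H k m := by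
    intro n H k m
    unfold Pool.Agent.TH773.Turan34.spans spans
    congr!
  have htg : ∀ {n : ℕ} (g : Fin n → Fin 3), Pool.Agent.Y439.Loc.tgraph g = turanGraph g := by
    intro n g
    unfold Pool.Agent.Y439.Loc.tgraph turanGraph
    congr!
  refine ⟨?_, fun n g => ?_, fun n => ?_⟩
  · obtain ⟨c1, hc1, n1, h1⟩ := Pool.Agent.Y903.TX.exact_of_cls Pool.Agent.Y903.TX.cls54
    obtain ⟨c2, hc2, n2, h2⟩ := Pool.Agent.Y903.TX.exact_of_cls Pool.Agent.Y903.TX.cls66
    refine ⟨min c1 c2, lt_min hc1 hc2, max n1 n2, fun n hn H hH hK hcard => ⟨?_, ?_⟩⟩
    · by_cases h : min c1 c2 * (n : ℝ) ^ 3 < (spans H 5 4 : ℝ)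
      · exact Or.inr h
      · left
        push Not at h
        have h3 : (Pool.Agent.TH773.Turan34.spans H 5 4 : ℝ) ≤ c1 * (n : ℝ) ^ 3 := by
          rw [hsp]
          exact h.trans (mul_le_mul_of_nonneg_right (min_le_left _ _) (by positivity))
        exact h1 n ((le_max_left _ _).trans hn) H hH hK hcard h3
    · by_cases h : min c1 c2 * (n : ℝ) ^ 4 < (spans H 6 6 : ℝ)
      · exact Or.inr h
      · left
        push Not at h
        have h3 : (Pool.Agent.TH773.Turan34.spans H 6 6 : ℝ) ≤ c2 * (n : ℝ) ^ 4 := by
          rw [hsp]
          exact h.trans (mul_le_mul_of_nonneg_right (min_le_right _ _) (by positivity))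
        obtain ⟨h4, g, h5⟩ := h2 n ((le_max_right _ _).trans hn) H hH hK hcard h3
        exact ⟨h4, g, by rw [h5, htg]⟩
  · have e := (Pool.Agent.Y903.TX.turan_tgraph g).trans (htg g)
    rw [← e, ← hsp, ← hsp]
    exact ⟨Pool.Agent.TH773.ST.turan_free g,
      Pool.Agent.TH773.CM.spans_turan (by norm_num) Pool.Agent.TH773.CM.rs5 g,
      Pool.Agent.TH773.CM.spans_turan (by norm_num)
        (fun c => (Pool.Agent.TH773.CM.rs6 c).1) g⟩
  · obtain ⟨g, hg⟩ := Pool.Agent.Y903.TX.tgraph_card n
    exact ⟨g, by rw [← htg]; exact hg⟩

end Pool.Agent.Results.MP_466853_co.ExactOrderSize
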