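import Pool.Agent.Y47.BU.Link
import Pool.Agent.Y47.BU.Dat

/-!
# Turán's `(3,4)`-problem: density `5/9` and stability for infinitely many forbidden link graphs

Turán's conjecture says that a `K_4^3`-free 3-graph on `n` vertices has at most
`(5/9 + o(1)) C(n,3)` edges. Here this is proved, together with stability, for `K_4^3`-free
3-graphs with (almost) no induced copies of a graph `F` in their link graphs, where `F` is any graph
of four infinite families, which contain arbitrarily large graphs:

* the disjoint union of a triangle and a star, and its induced subgraphs;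
* the join of an independent set and a disjoint union of a star and isolated vertices, and its
  induced subgraphs, for example all complete tripartite graphs `K_{1,s,t}`;
* books (triangles with a common edge) with isolated vertices, and their induced subgraphs;
* complete bipartite graphs from which edges at one vertex are removed, for example all graphs
  `K_{s,t}` with an isolated vertex.

Outline: for five lists of six-vertex 3-graphs there are sum of squares certificates which bound the
distance to Turán's construction by the number of missing edges and the number of induced copies of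
the members of the list. If a member `X` of a list has positive density, then by the theorem of Erdős
on complete multipartite hypergraphs and Ramsey's theorem there are many large blow-ups of `X` in
which the six parts are independent and each triple with two vertices in a part and one in another
part depends only on the parts. A decision tree shows that each such blow-up contains four vertices
with four edges or a copy of `F` in a link graph. So `X` has density `o(1)`.
-/

set_option autoImplicit false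
set_option maxRecDepth 100000
set_option maxHeartbeats 4000000
open Finset
open scoped Classical

namespace Pool.Agent.Results.MP_466853_co.InfiniteLinkFamilies
open Pool.Agent.TH773.Turan34
open Pool.Agent.Y47.BU

/-- The number of labelled induced copies of the graph `F` in the link graphs of `H`: the pairs
`(v, f)` of a vertex `v` and an injection `f` from the vertices of `F` to the vertices other than `v`
such that `u w` is an edge of `F` if and only if `v, f u, f w` form an edge of `H`. -/
noncomputable def linkCopies {α : Type} [Fintype α] (F : SimpleGraph α) {n : ℕ}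
    (H : Finset (Finset (Fin n))) : ℕ :=
  ((univ : Finset (Fin n × (α → Fin n))).filter fun q => Function.Injective q.2 ∧
    (∀ u, q.2 u ≠ q.1) ∧
    ∀ u w, u ≠ w → (F.Adj u w ↔ ({q.1, q.2 u, q.2 w} : Finset (Fin n)) ∈ H)).card

/-- The graph `F` arises from an induced subgraph of the graph with the edges `A` on `X ∪ Y` when
the vertices in `X` are replaced by independent sets of any sizes. -/
def Fits (A : Finset (Finset (Fin 5))) (X Y : Finset (Fin 5)) {α : Type} (F : SimpleGraph α) :
    Prop :=
  ∃ φ : α → Fin 5, (∀ u, φ u ∈ X ∪ Y) ∧ (∀ u w, u ≠ w → φ u = φ w → φ u ∈ X) ∧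
    ∀ u w, u ≠ w → (F.Adj u w ↔ ({φ u, φ w} : Finset (Fin 5)) ∈ A)

/-- `F` is an induced subgraph of the disjoint union of a triangle (the vertices `1, 2, 3`) and a
star (with the centre `4` and the leaves in the class `0`). -/
def TriangleStar {α : Type} (F : SimpleGraph α) : Prop :=
  Fits {{0, 4}, {1, 2}, {1, 3}, {2, 3}} {0} {1, 2, 3, 4} F

/-- `F` is an induced subgraph of the join of an independent set (the class `0`) and the disjoint
union of a star (with the centre `2` and the leaves in the class `1`) and isolated vertices (the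
class `3`). -/
def JoinStar {α : Type} (F : SimpleGraph α) : Prop :=
  Fits {{0, 1}, {0, 2}, {0, 3}, {1, 2}} {0, 1, 3} {2} F

/-- `F` is an induced subgraph of a book (the common edge `1 2` and the class `0` of the other
vertices of the triangles) with isolated vertices (the class `3`). -/
def BookIsolated {α : Type} (F : SimpleGraph α) : Prop :=
  Fits {{0, 1}, {0, 2}, {1, 2}} {0, 3} {1, 2} F

/-- `F` is an induced subgraph of a complete bipartite graph from which edges at one vertex are
removed: one side is the class `1` and the vertex `3`, the other side consists of the classes `0` and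
`2`, and the edges between the vertex `3` and the class `2` are missing. -/
def NearBipartite {α : Type} (F : SimpleGraph α) : Prop :=
  Fits {{0, 1}, {0, 3}, {1, 2}} {0, 1, 2} {3} F

/-- The graph with the edges `A` on `0, ..., k - 1` is an induced subgraph of `F`. -/
def Inside {k : ℕ} (A : Finset (Finset (Fin k))) {α : Type} (F : SimpleGraph α) : Prop :=
  ∃ f : Fin k → α, Function.Injective f ∧ ∀ i j, i ≠ j → (F.Adj (f i) (f j) ↔ {i, j} ∈ A)

/-- The path `0 1 2 3`, two disjoint edges, the path `0 1 2` with the isolated vertex `3`, or the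
wheel with four spokes (and hub `4`) is an induced subgraph of `F`. -/
def Core {α : Type} (F : SimpleGraph α) : Prop :=
  Inside (k := 4) {{0, 1}, {1, 2}, {2, 3}} F ∨ Inside (k := 4) {{0, 1}, {2, 3}} F ∨
    Inside (k := 4) {{0, 1}, {1, 2}} F ∨
    Inside (k := 5) {{0, 1}, {1, 2}, {2, 3}, {0, 3}, {0, 4}, {1, 4}, {2, 4}, {3, 4}} F

theorem fits_main {A : Finset (Finset (Fin 5))} {X Y : Finset (Fin 5)} (i : Fin 5) (P : Pt)
    (hok : ∀ m ∈ Pool.Agent.TH773.ST.famM i, ∃ tr, chk P m [] tr = true) (hP : 0 < P.k)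
    (h1 : ∀ a ∈ X ∪ Y, a.val + 1 < P.k)
    (h2 : ∀ a ∈ X ∪ Y, ∀ b ∈ X ∪ Y, a < b →
      (0, a.val + 1, b.val + 1, if ({a, b} : Finset (Fin 5)) ∈ A then 1 else 0) ∈ P.T)
    (h3 : ∀ a ∈ X, (a.val + 1, 0, 0) ∈ P.R) (h4 : ∀ a : Fin 5, ({a, a} : Finset (Fin 5)) ∉ A)
    {α : Type} [Fintype α] {F : SimpleGraph α} (hF : Fits A X Y F) {ε : ℝ} (hε : 0 < ε) :
    ∃ δ : ℝ, 0 < δ ∧ ∃ n0 : ℕ, ∀ n, n0 ≤ n →
      ∀ H : Finset (Finset (Fin n)), (∀ e ∈ H, e.card = 3) → K43Free H →
      (linkCopies F H : ℝ) ≤ δ * (n : ℝ) ^ (Fintype.card α + 1) →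
      (H.card : ℝ) ≤ (5 / 9 + ε) * (n.choose 3 : ℝ) ∧ ∃ g : Fin n → Fin 3,
      ((symmDiff H (turan g)).card : ℝ) ≤
        1161216000 * (5 / 54 * (n : ℝ) ^ 3 - H.card) + ε * (n : ℝ) ^ 3 := by
  obtain ⟨φ, a1, a2, a3⟩ := hF
  refine link_main i P hok F (fun u => (φ u).val) hP (fun u => h1 _ (a1 u)) ?_ ?_ hε
  · intro u v huv hlt
    have e1 := h2 _ (a1 u) _ (a1 v) hlt
    have e2 : (if F.Adj u v then 1 else 0 : ℕ) =
        if ({φ u, φ v} : Finset (Fin 5)) ∈ A then 1 else 0 := by
      simp only [a3 u v huv]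
    rw [e2]
    exact e1
  · intro u v huv he
    have he' : φ u = φ v := Fin.ext he
    refine ⟨h3 _ (a2 u v huv he'), ?_⟩
    rw [a3 u v huv, he']
    exact h4 _

theorem link_turan {α : Type} [Fintype α] {F : SimpleGraph α} {n : ℕ} (g : Fin n → Fin 3)
    (h : ∀ (v : Fin n) (f : α → Fin n), Function.Injective f → (∀ u, f u ≠ v) →
      ¬ ∀ u w, u ≠ w → (F.Adj u w ↔ Pool.Agent.TH773.ST.Rf (g v) (g (f u)) (g (f w)) = 1)) :
    linkCopies F (turan g) = 0 := by
  unfold linkCopies
  rw [card_eq_zero, filter_eq_empty_iff]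
  rintro ⟨v, f⟩ - ⟨h1, h2, h3⟩
  refine h v f h1 h2 fun u w huw => ?_
  rw [h3 u w huw]
  exact Pool.Agent.TH773.ST.mem_turan (h2 u).symm (h2 w).symm (h1.ne huw)

theorem core4 : ∀ a b c d e : Fin 3,
    ¬ ((Pool.Agent.TH773.ST.Rf a b c = 1) ∧ (Pool.Agent.TH773.ST.Rf a b d ≠ 1) ∧
      (Pool.Agent.TH773.ST.Rf a b e ≠ 1) ∧ (Pool.Agent.TH773.ST.Rf a c d = 1) ∧
      (Pool.Agent.TH773.ST.Rf a c e ≠ 1) ∧ (Pool.Agent.TH773.ST.Rf a d e = 1)) ∧
    ¬ ((Pool.Agent.TH773.ST.Rf a b c = 1) ∧ (Pool.Agent.TH773.ST.Rf a b d ≠ 1) ∧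
      (Pool.Agent.TH773.ST.Rf a b e ≠ 1) ∧ (Pool.Agent.TH773.ST.Rf a c d ≠ 1) ∧
      (Pool.Agent.TH773.ST.Rf a c e ≠ 1) ∧ (Pool.Agent.TH773.ST.Rf a d e = 1)) ∧
    ¬ ((Pool.Agent.TH773.ST.Rf a b c = 1) ∧ (Pool.Agent.TH773.ST.Rf a b d ≠ 1) ∧
      (Pool.Agent.TH773.ST.Rf a b e ≠ 1) ∧ (Pool.Agent.TH773.ST.Rf a c d = 1) ∧
      (Pool.Agent.TH773.ST.Rf a c e ≠ 1) ∧ (Pool.Agent.TH773.ST.Rf a d e ≠ 1)) := by
  decide +kernel

theorem core5 : ∀ a b c d e f : Fin 3,
    ¬ ((Pool.Agent.TH773.ST.Rf a b c = 1) ∧ (Pool.Agent.TH773.ST.Rf a b d ≠ 1) ∧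
      (Pool.Agent.TH773.ST.Rf a b e = 1) ∧ (Pool.Agent.TH773.ST.Rf a c d = 1) ∧
      (Pool.Agent.TH773.ST.Rf a c e ≠ 1) ∧ (Pool.Agent.TH773.ST.Rf a d e = 1) ∧
      (Pool.Agent.TH773.ST.Rf a b f = 1) ∧ (Pool.Agent.TH773.ST.Rf a c f = 1) ∧
      (Pool.Agent.TH773.ST.Rf a d f = 1) ∧ (Pool.Agent.TH773.ST.Rf a e f = 1)) := by
  decide +kernel

theorem core_turan {α : Type} [Fintype α] {F : SimpleGraph α} (hF : Core F) {n : ℕ}
    (g : Fin n → Fin 3) : linkCopies F (turan g) = 0 := by
  refine link_turan g fun v f _ _ h => ?_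
  rcases hF with ⟨j, hj, h1⟩ | ⟨j, hj, h1⟩ | ⟨j, hj, h1⟩ | ⟨j, hj, h1⟩
  · have e : ∀ x y : Fin 4, x ≠ y → (({x, y} : Finset (Fin 4)) ∈
        ({{0, 1}, {1, 2}, {2, 3}} : Finset (Finset (Fin 4))) ↔
        Pool.Agent.TH773.ST.Rf (g v) (g (f (j x))) (g (f (j y))) = 1) := fun x y hxy => by
      rw [← h1 x y hxy]; exact h _ _ (hj.ne hxy)
    refine (core4 (g v) (g (f (j 0))) (g (f (j 1))) (g (f (j 2))) (g (f (j 3)))).1
      ⟨(e 0 1 (by decide)).mp (by decide), ?_, ?_, (e 1 2 (by decide)).mp (by decide), ?_,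
        (e 2 3 (by decide)).mp (by decide)⟩
    · intro hh; exact absurd ((e 0 2 (by decide)).mpr hh) (by decide)
    · intro hh; exact absurd ((e 0 3 (by decide)).mpr hh) (by decide)
    · intro hh; exact absurd ((e 1 3 (by decide)).mpr hh) (by decide)
  · have e : ∀ x y : Fin 4, x ≠ y → (({x, y} : Finset (Fin 4)) ∈
        ({{0, 1}, {2, 3}} : Finset (Finset (Fin 4))) ↔
        Pool.Agent.TH773.ST.Rf (g v) (g (f (j x))) (g (f (j y))) = 1) := fun x y hxy => by
      rw [← h1 x y hxy]; exact h _ _ (hj.ne hxy)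
    refine (core4 (g v) (g (f (j 0))) (g (f (j 1))) (g (f (j 2))) (g (f (j 3)))).2.1
      ⟨(e 0 1 (by decide)).mp (by decide), ?_, ?_, ?_, ?_, (e 2 3 (by decide)).mp (by decide)⟩
    · intro hh; exact absurd ((e 0 2 (by decide)).mpr hh) (by decide)
    · intro hh; exact absurd ((e 0 3 (by decide)).mpr hh) (by decide)
    · intro hh; exact absurd ((e 1 2 (by decide)).mpr hh) (by decide)
    · intro hh; exact absurd ((e 1 3 (by decide)).mpr hh) (by decide)
  · have e : ∀ x y : Fin 4, x ≠ y → (({x, y} : Finset (Fin 4)) ∈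
        ({{0, 1}, {1, 2}} : Finset (Finset (Fin 4))) ↔
        Pool.Agent.TH773.ST.Rf (g v) (g (f (j x))) (g (f (j y))) = 1) := fun x y hxy => by
      rw [← h1 x y hxy]; exact h _ _ (hj.ne hxy)
    refine (core4 (g v) (g (f (j 0))) (g (f (j 1))) (g (f (j 2))) (g (f (j 3)))).2.2
      ⟨(e 0 1 (by decide)).mp (by decide), ?_, ?_, (e 1 2 (by decide)).mp (by decide), ?_, ?_⟩
    · intro hh; exact absurd ((e 0 2 (by decide)).mpr hh) (by decide)
    · intro hh; exact absurd ((e 0 3 (by decide)).mpr hh) (by decide)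
    · intro hh; exact absurd ((e 1 3 (by decide)).mpr hh) (by decide)
    · intro hh; exact absurd ((e 2 3 (by decide)).mpr hh) (by decide)
  · have e : ∀ x y : Fin 5, x ≠ y → (({x, y} : Finset (Fin 5)) ∈
        ({{0, 1}, {1, 2}, {2, 3}, {0, 3}, {0, 4}, {1, 4}, {2, 4}, {3, 4}} :
          Finset (Finset (Fin 5))) ↔
        Pool.Agent.TH773.ST.Rf (g v) (g (f (j x))) (g (f (j y))) = 1) := fun x y hxy => by
      rw [← h1 x y hxy]; exact h _ _ (hj.ne hxy)
    refine core5 (g v) (g (f (j 0))) (g (f (j 1))) (g (f (j 2))) (g (f (j 3))) (g (f (j 4)))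
      ⟨(e 0 1 (by decide)).mp (by decide), ?_, (e 0 3 (by decide)).mp (by decide),
        (e 1 2 (by decide)).mp (by decide), ?_, (e 2 3 (by decide)).mp (by decide),
        (e 0 4 (by decide)).mp (by decide), (e 1 4 (by decide)).mp (by decide),
        (e 2 4 (by decide)).mp (by decide), (e 3 4 (by decide)).mp (by decide)⟩
    · intro hh; exact absurd ((e 0 2 (by decide)).mpr hh) (by decide)
    · intro hh; exact absurd ((e 1 3 (by decide)).mpr hh) (by decide)

/-- Let `F` be a finite graph of one of the four families. For every `ε > 0` there are `δ > 0` and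
`n0` such that every `K_4^3`-free 3-graph `H` on `n ≥ n0` vertices with at most `δ n^{|F| + 1}`
labelled induced copies of `F` in its link graphs has at most `(5/9 + ε) C(n,3)` edges, and satisfies
`|H ∆ turan g| ≤ 1161216000 ((5/54) n³ - |H|) + ε n³` for some division `g` of the vertices into
three classes. Turán's construction is `K_4^3`-free, and it has no induced copy of `F` in its link
graphs if `F` has a path with four vertices, two disjoint edges, a path with three vertices and an
isolated vertex, or a wheel with four spokes as an induced subgraph. -/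
theorem result :
    (∀ (α : Type) [Fintype α] (F : SimpleGraph α),
      (TriangleStar F ∨ JoinStar F ∨ BookIsolated F ∨ NearBipartite F) → ∀ ε : ℝ, 0 < ε →
      ∃ δ : ℝ, 0 < δ ∧ ∃ n0 : ℕ, ∀ n, n0 ≤ n → ∀ H : Finset (Finset (Fin n)),
        (∀ e ∈ H, e.card = 3) → K43Free H →
        (linkCopies F H : ℝ) ≤ δ * (n : ℝ) ^ (Fintype.card α + 1) →
        (H.card : ℝ) ≤ (5 / 9 + ε) * (n.choose 3 : ℝ) ∧ ∃ g : Fin n → Fin 3,
          ((symmDiff H (turan g)).card : ℝ) ≤
            1161216000 * (5 / 54 * (n : ℝ) ^ 3 - H.card) + ε * (n : ℝ) ^ 3) ∧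
    (∀ (n : ℕ) (g : Fin n → Fin 3), K43Free (turan g)) ∧
    (∀ (α : Type) [Fintype α] (F : SimpleGraph α), Core F → ∀ (n : ℕ) (g : Fin n → Fin 3),
      linkCopies F (turan g) = 0) := by
  refine ⟨?_, fun n g => Pool.Agent.TH773.ST.turan_free g, fun α _ F hF n g => core_turan hF g⟩
  intro α _ F hF ε hε
  rcases hF with hF | hF | hF | hF
  · exact fits_main 4 PA okA (by decide) (by decide) (by decide) (by decide) (by decide) hF hε
  · exact fits_main 1 PB okB (by decide) (by decide) (by decide) (by decide) (by decide) hF hε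
  · exact fits_main 2 PC okC (by decide) (by decide) (by decide) (by decide) (by decide) hF hε
  · exact fits_main 0 PD okD (by decide) (by decide) (by decide) (by decide) (by decide) hF hε

end Pool.Agent.Results.MP_466853_co.InfiniteLinkFamilies
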