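import Pool.Agent.Y439.Col.V1Check
import Pool.Agent.Y439.Col.L2Check
import Pool.Agent.Y439.Col.L3Check
import Pool.Agent.Y439.Col.L4Check

/-!
# Turán's bound for 3-graphs whose pairs are compared with Turán's construction

Let `H` be a `K_4^3`-free 3-graph on `n` vertices, and let its vertex set be divided into three
classes `V_0`, `V_1`, `V_2` of any sizes, with Turán's construction `T`. For two vertices `x`, `y`
of different classes let `d(x, y)` be the number of edges `xyz` with `z` in the later one of the two
classes (these edges are not in `T`), and let `t(x, y)` be the number of edges `xyz` with `z` in the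
third class (these edges are in `T`). For two vertices `x`, `y` of the same class let `d(x, y)` be
the number of edges `xyz` inside this class (not in `T`) and `t(x, y)` the number of edges `xyz` with
`z` in the next class (in `T`). Suppose that `d(x, y) ≤ 2/3 t(x, y)` for different classes and
`d(x, y) ≤ t(x, y)` for equal classes. We prove that `H` has at most `5/54 n^3` edges, as
conjectured for all `K_4^3`-free 3-graphs, and that the difference is at least `|H Δ T| / 6480`.
The same holds under three other linear conditions, which mix this comparison with the sizes of the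
classes, and all this is deduced from an inequality for all `K_4^3`-free 3-graphs and all partitions
into three classes. The proof is a flag algebra computation of order five for coloured 3-graphs,
checked by the kernel.
-/

set_option autoImplicit false
open Finset

namespace Pool.Agent.Results.MP_466853_co.PairwiseComparison

variable {n : ℕ}

/-- The 3-graph `H` has no four vertices spanning all four triples. -/
def K43Free (H : Finset (Finset (Fin n))) : Prop :=
  ∀ S : Finset (Fin n), S.card = 4 → ∃ T ⊆ S, T.card = 3 ∧ T ∉ H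

/-- Turán's construction for the classes of `c`: the triples meeting all three classes, and the
triples with two vertices in a class and one in the (cyclically) next class. -/
def turan (c : Fin n → Fin 3) : Finset (Finset (Fin n)) :=
  univ.filter fun e => e.card = 3 ∧ ((∀ k, ∃ x ∈ e, c x = k) ∨
    ∃ k, (e.filter fun x => c x = k).card = 2 ∧ (e.filter fun x => c x = k + 1).card = 1)

/-- The later one of the classes of `x` and `y`: the class of `y` if it follows cyclically the class
of `x`, and the class of `x` otherwise (if they are equal or the class of `x` follows). -/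
def laterClass (c : Fin n → Fin 3) (x y : Fin n) : Fin 3 := if c y = c x + 1 then c y else c x

/-- The number of vertices `z` in the later class of `x`, `y` with `{x, y, z}` an edge. -/
def laterDegree (H : Finset (Finset (Fin n))) (c : Fin n → Fin 3) (x y : Fin n) : ℕ :=
  (univ.filter fun z => c z = laterClass c x y ∧ {x, y, z} ∈ H).card

/-- The number of vertices in the later class of `x`, `y`. -/
def laterSize (c : Fin n → Fin 3) (x y : Fin n) : ℕ :=
  (univ.filter fun z => c z = laterClass c x y).card

/-- The number of vertices `z` in the (cyclically) next class after the later class of `x`, `y` with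
`{x, y, z}` an edge. These edges are in Turán's construction. -/
def nextDegree (H : Finset (Finset (Fin n))) (c : Fin n → Fin 3) (x y : Fin n) : ℕ :=
  (univ.filter fun z => c z = laterClass c x y + 1 ∧ {x, y, z} ∈ H).card

/-- The conditions `b * laterDegree ≤ a * laterSize + l * nextDegree` for any two vertices of
different classes, and `b' * laterDegree ≤ a' * laterSize + l' * nextDegree` for any two vertices of
the same class. -/
def PairConditions (H : Finset (Finset (Fin n))) (c : Fin n → Fin 3) (b a l b' a' l' : ℕ) : Prop :=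
  (∀ x y, c x ≠ c y → b * laterDegree H c x y ≤ a * laterSize c x y + l * nextDegree H c x y) ∧
  ∀ x y, x ≠ y → c x = c y →
    b' * laterDegree H c x y ≤ a' * laterSize c x y + l' * nextDegree H c x y

/-- The total violation of these conditions, summed over all ordered pairs of vertices
(the differences are 0 if they are negative). -/
def violation (H : Finset (Finset (Fin n))) (c : Fin n → Fin 3) (b a l b' a' l' : ℕ) : ℕ :=
  ∑ x, ∑ y, if c x = c y then
      b' * laterDegree H c x y - (a' * laterSize c x y + l' * nextDegree H c x y)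
    else b * laterDegree H c x y - (a * laterSize c x y + l * nextDegree H c x y)

open Pool.Agent.Y439.Col

theorem ltr_data : ∀ a b d : Fin 3, ((d : ℕ) = ltr (a : ℕ) (b : ℕ)) ↔
    d = (if b = a + 1 then b else a) := by decide

theorem nxt_data : ∀ a b d : Fin 3, ((d : ℕ) = nxt (a : ℕ) (b : ℕ)) ↔
    d = (if b = a + 1 then b else a) + 1 := by decide

theorem dfc_eq (H : Finset (Finset (Fin n))) (c : Fin n → Fin 3) (p q r s l m : ℕ) :
    ∑ x, ∑ y, dfcC p q r s l m (fun v => (c v : ℕ)) (tri H) x y =
      violation H c (p + q) p l (r + s) r m := by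
  unfold violation dfcC
  refine sum_congr rfl fun x _ => sum_congr rfl fun y _ => ?_
  have e1 : dlt (fun v => (c v : ℕ)) (tri H) x y = laterDegree H c x y := by
    unfold dlt laterDegree tri laterClass
    rw [card_filter]
    refine sum_congr rfl fun z _ => ?_
    simp only [ltr_data]
    split_ifs <;> simp_all
  have e2 : vlt (fun v => (c v : ℕ)) x y = laterSize c x y := by
    unfold vlt laterSize laterClass
    rw [card_filter]
    refine sum_congr rfl fun z _ => ?_
    simp only [ltr_data]
  have e3 : dnx (fun v => (c v : ℕ)) (tri H) x y = nextDegree H c x y := by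
    unfold dnx nextDegree tri laterClass
    rw [card_filter]
    refine sum_congr rfl fun z _ => ?_
    simp only [nxt_data]
    split_ifs <;> simp_all
  simp only [Fin.val_inj, e1, e2, e3]

theorem violation_zero {H : Finset (Finset (Fin n))} (h3 : ∀ e ∈ H, e.card = 3)
    {c : Fin n → Fin 3} {b a l b' a' l' : ℕ} (h : PairConditions H c b a l b' a' l') :
    violation H c b a l b' a' l' = 0 := by
  unfold violation
  refine sum_eq_zero fun x _ => sum_eq_zero fun y _ => ?_
  split_ifs with hxy
  · by_cases e : x = y
    · subst e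
      have : laterDegree H c x x = 0 := by
        unfold laterDegree
        rw [card_eq_zero, filter_eq_empty_iff]
        rintro z _ ⟨_, hz⟩
        exact (distinct_of_mem h3 hz).1 rfl
      rw [this]
      simp
    · exact Nat.sub_eq_zero_of_le (h.2 x y e hxy)
  · exact Nat.sub_eq_zero_of_le (h.1 x y hxy)

theorem turan_data : ∀ a b d : Fin 3, ((∀ k, a = k ∨ b = k ∨ d = k) ∨
    ∃ k, ((if a = k then 1 else 0) + ((if b = k then 1 else 0) + (if d = k then 1 else 0)) = 2 ∧
      (if a = k + 1 then 1 else 0) + ((if b = k + 1 then 1 else 0) +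
        (if d = k + 1 then 1 else 0)) = 1)) ↔
    tbl (rc (a : ℕ) (b : ℕ)) (rc (a : ℕ) (d : ℕ)) = 1 := by
  decide

theorem tbl_le : ∀ a b d : Fin 3, tbl (rc (a : ℕ) (b : ℕ)) (rc (a : ℕ) (d : ℕ)) ≤ 1 := by decide

theorem filter_three (c : Fin n → Fin 3) (x y z : Fin n) (h1 : x ≠ y) (h2 : y ≠ z) (h3 : x ≠ z)
    (k : Fin 3) : (({x, y, z} : Finset (Fin n)).filter fun w => c w = k).card =
      (if c x = k then 1 else 0) + ((if c y = k then 1 else 0) + (if c z = k then 1 else 0)) := by
  rw [card_filter, sum_insert, sum_insert, sum_singleton]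
  · simpa using h2
  · simp only [mem_insert, mem_singleton]; push Not; exact ⟨h1, h3⟩

theorem mem_turan (c : Fin n → Fin 3) {x y z : Fin n} (h1 : x ≠ y) (h2 : y ≠ z) (h3 : x ≠ z) :
    ({x, y, z} : Finset (Fin n)) ∈ turan c ↔
      tbl (rc (c x : ℕ) (c y : ℕ)) (rc (c x : ℕ) (c z : ℕ)) = 1 := by
  have hc : ({x, y, z} : Finset (Fin n)).card = 3 := card_eq_three.2 ⟨x, y, z, h1, h3, h2, rfl⟩
  unfold turan
  rw [mem_filter, ← turan_data]
  simp only [mem_univ, true_and, hc, mem_insert, mem_singleton, exists_eq_or_imp, exists_eq_left,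
    filter_three c x y z h1 h2 h3]

theorem symm_card {H : Finset (Finset (Fin n))} (h3 : ∀ e ∈ H, e.card = 3) (c : Fin n → Fin 3) :
    6 * (symmDiff H (turan c)).card ≤
      ∑ a, ∑ b, ∑ d, wg (fun v => (c v : ℕ)) (tri H) a b d := by
  have hK : ∀ e ∈ symmDiff H (turan c), e.card = 3 := by
    intro e he
    rw [mem_symmDiff] at he
    rcases he with he | he
    · exact h3 e he.1
    · have := he.1
      unfold turan at this
      rw [mem_filter] at this
      exact this.2.1
  refine (six_card_le hK).trans ?_
  refine sum_le_sum fun a _ => sum_le_sum fun b _ => sum_le_sum fun d _ => ?_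
  by_cases h : ({a, b, d} : Finset (Fin n)) ∈ symmDiff H (turan c)
  · rw [tri_eq_one.2 h]
    obtain ⟨n1, n2, n3⟩ := distinct_of_mem hK h
    have hm := mem_turan c n1 n3 n2
    have hl := tbl_le (c a) (c b) (c d)
    unfold wg wf
    have hne : ¬ Nat.beq (tbl (rc (c a : ℕ) (c b : ℕ)) (rc (c a : ℕ) (c d : ℕ)))
        (tri H a b d) = true := by
      intro hb
      have hb' := Nat.eq_of_beq_eq_true hb
      rw [mem_symmDiff] at h
      rcases h with ⟨h, h'⟩ | ⟨h, h'⟩
      · rw [tri_eq_one.2 h] at hb'
        exact h' (hm.2 hb')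
      · rw [tri_eq_zero.2 h', hm.1 h] at hb'
        exact absurd hb' (by norm_num)
    rw [if_neg hne]
  · rw [tri_eq_zero.2 h]
    exact Nat.zero_le _

theorem edges_of {H : Finset (Finset (Fin n))} (h3 : ∀ e ∈ H, e.card = 3) (c : Fin n → Fin 3)
    (W g T C D : ℕ) (hW : 0 < W) (hg : W ≤ 72 * g) (hC : 3 * T ≤ C * W)
    (h : 90 * W * (Fintype.card (Fin n) ^ 2 * ∑ a, ∑ b, ∑ d, tri H a b d) +
      g * (Fintype.card (Fin n) ^ 2 *
        ∑ a, ∑ b, ∑ d, wg (fun v => (c v : ℕ)) (tri H) a b d) ≤
      50 * W * Fintype.card (Fin n) ^ 5 + 30 * (T * (Fintype.card (Fin n) ^ 2 * D))) :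
    6480 * H.card + (symmDiff H (turan c)).card ≤ 600 * n ^ 3 + 120 * C * D := by
  rw [Fintype.card_fin] at h
  have h6 := six_card_le h3
  have h7 := symm_card h3 c
  rcases Nat.eq_zero_or_pos n with h0 | h0
  · subst h0
    have e1 : H.card = 0 := by
      have : ∑ a : Fin 0, ∑ b, ∑ d, tri H a b d = 0 := by simp
      omega
    have e2 : (symmDiff H (turan c)).card = 0 := by
      have : ∑ a : Fin 0, ∑ b, ∑ d, wg (fun v => (c v : ℕ)) (tri H) a b d = 0 := by simp
      omega
    rw [e1, e2]
    exact Nat.zero_le _
  · set S := ∑ a, ∑ b, ∑ d, tri H a b d with hS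
    set R := ∑ a, ∑ b, ∑ d, wg (fun v => (c v : ℕ)) (tri H) a b d with hR
    set Y := (symmDiff H (turan c)).card with hY
    have hn2 : 0 < n ^ 2 := by positivity
    have h8 : n ^ 2 * (90 * W * S + g * R) ≤ n ^ 2 * (50 * W * n ^ 3 + 30 * (T * D)) := by
      calc n ^ 2 * (90 * W * S + g * R) = 90 * W * (n ^ 2 * S) + g * (n ^ 2 * R) := by ring
        _ ≤ _ := h
        _ = _ := by ring
    have h9 := Nat.le_of_mul_le_mul_left h8 hn2
    have h10 : W * (6480 * H.card + Y) ≤ W * (600 * n ^ 3 + 120 * C * D) := by
      calc W * (6480 * H.card + Y) ≤ W * (6480 * H.card) + 72 * g * Y := by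
            rw [Nat.mul_add]
            exact Nat.add_le_add_left (Nat.mul_le_mul_right _ hg) _
        _ = 12 * (90 * W * (6 * H.card) + g * (6 * Y)) := by ring
        _ ≤ 12 * (90 * W * S + g * R) := by
            refine Nat.mul_le_mul_left _ (Nat.add_le_add ?_ ?_)
            · exact Nat.mul_le_mul_left _ h6
            · exact Nat.mul_le_mul_left _ h7
        _ ≤ 12 * (50 * W * n ^ 3 + 30 * (T * D)) := Nat.mul_le_mul_left _ h9
        _ = 600 * W * n ^ 3 + 120 * D * (3 * T) := by ring
        _ ≤ 600 * W * n ^ 3 + 120 * D * (C * W) :=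
            Nat.add_le_add_left (Nat.mul_le_mul_left _ hC) _
        _ = _ := by ring
    exact Nat.le_of_mul_le_mul_left h10 hW

/-- Let `H` be a `K_4^3`-free 3-graph on `n` vertices, `c` a division of its vertices into three
classes and `T` Turán's construction for these classes. Then `54 |H| + |H Δ T| / 120` is at most
`5 n^3 + 32 X_1`, `5 n^3 + 19 X_2`, `5 n^3 + 26 X_3` and `5 n^3 + 29 X_4`, where `X_1, ..., X_4` are
the total violations of the conditions: `3 d ≤ 2 t` for different and `d ≤ t` for equal classes;
`4 d ≤ v + t` and `4 d ≤ v + 2 t`; `6 d ≤ 3 v + 2 t` and `6 d ≤ v`; `2 d ≤ v` and `3 d ≤ v`, where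
`d`, `v`, `t` stand for `laterDegree`, `laterSize` and `nextDegree`. In particular it is at most
`5 n^3` if one of the four pairs of conditions holds. -/
theorem result (n : ℕ) (H : Finset (Finset (Fin n))) (h3 : ∀ e ∈ H, e.card = 3) (hK : K43Free H)
    (c : Fin n → Fin 3) :
    6480 * H.card + (symmDiff H (turan c)).card ≤ 600 * n ^ 3 + 120 * 32 * violation H c 3 0 2 1 0 1 ∧
    6480 * H.card + (symmDiff H (turan c)).card ≤ 600 * n ^ 3 + 120 * 19 * violation H c 4 1 1 4 1 2 ∧
    6480 * H.card + (symmDiff H (turan c)).card ≤ 600 * n ^ 3 + 120 * 26 * violation H c 6 3 2 6 1 0 ∧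
    6480 * H.card + (symmDiff H (turan c)).card ≤ 600 * n ^ 3 + 120 * 29 * violation H c 2 1 0 3 1 0 ∧
    (PairConditions H c 3 0 2 1 0 1 ∨ PairConditions H c 4 1 1 4 1 2 ∨
        PairConditions H c 6 3 2 6 1 0 ∨ PairConditions H c 2 1 0 3 1 0 →
      6480 * H.card + (symmDiff H (turan c)).card ≤ 600 * n ^ 3) := by
  have hc3 : ∀ x, ((c x : Fin 3) : ℕ) < 3 := fun x => (c x).isLt
  have q1 : 6480 * H.card + (symmDiff H (turan c)).card ≤ 600 * n ^ 3 + 120 * 32 * violation H c 3 0 2 1 0 1 := by
    have h := L2.final (fun v => (c v : ℕ)) hc3 (tri H) (tri_le H) (tri_s1 H) (tri_s2 H)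
      (tri_k4 h3 hK)
    rw [dfc_eq] at h
    exact edges_of h3 c _ _ _ _ _ (by norm_num) (by norm_num) (by norm_num) h
  have q2 : 6480 * H.card + (symmDiff H (turan c)).card ≤ 600 * n ^ 3 + 120 * 19 * violation H c 4 1 1 4 1 2 := by
    have h := L4.final (fun v => (c v : ℕ)) hc3 (tri H) (tri_le H) (tri_s1 H) (tri_s2 H)
      (tri_k4 h3 hK)
    rw [dfc_eq] at h
    exact edges_of h3 c _ _ _ _ _ (by norm_num) (by norm_num) (by norm_num) h
  have q3 : 6480 * H.card + (symmDiff H (turan c)).card ≤ 600 * n ^ 3 + 120 * 26 * violation H c 6 3 2 6 1 0 := by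
    have h := L3.final (fun v => (c v : ℕ)) hc3 (tri H) (tri_le H) (tri_s1 H) (tri_s2 H)
      (tri_k4 h3 hK)
    rw [dfc_eq] at h
    exact edges_of h3 c _ _ _ _ _ (by norm_num) (by norm_num) (by norm_num) h
  have q4 : 6480 * H.card + (symmDiff H (turan c)).card ≤ 600 * n ^ 3 + 120 * 29 * violation H c 2 1 0 3 1 0 := by
    have h := V1.final (fun v => (c v : ℕ)) hc3 (tri H) (tri_le H) (tri_s1 H) (tri_s2 H)
      (tri_k4 h3 hK)
    have e4 : ∑ x, ∑ y, dfcB 1 1 1 2 (fun v => (c v : ℕ)) (tri H) x y =
        violation H c 2 1 0 3 1 0 := by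
      rw [show violation H c 2 1 0 3 1 0 = violation H c (1 + 1) 1 0 (1 + 2) 1 0 from rfl,
        ← dfc_eq]
      unfold dfcB dfcC
      simp only [Nat.zero_mul, Nat.add_zero]
    rw [e4] at h
    exact edges_of h3 c _ _ _ _ _ (by norm_num) (by norm_num) (by norm_num) h
  refine ⟨q1, q2, q3, q4, ?_⟩
  rintro (h | h | h | h)
  · rwa [violation_zero h3 h, Nat.mul_zero, Nat.add_zero] at q1
  · rwa [violation_zero h3 h, Nat.mul_zero, Nat.add_zero] at q2
  · rwa [violation_zero h3 h, Nat.mul_zero, Nat.add_zero] at q3
  · rwa [violation_zero h3 h, Nat.mul_zero, Nat.add_zero] at q4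

end Pool.Agent.Results.MP_466853_co.PairwiseComparison
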