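import Pool.Agent.Y439.Col.U1Check
import Pool.Agent.Y439.Col.U2Check
import Pool.Agent.Y439.Col.U3Check

/-!
# Turán's bound for 3-graphs with a partition roughly like that of Turán's construction

Let `H` be a `K_4^3`-free 3-graph on `n` vertices, and let its vertex set be divided into three
classes of any sizes such that any two vertices of different classes form an edge with at least two
thirds of the vertices of the third class, and any two vertices of the same class form an edge with
at most one third of the vertices of this class. (In Turán's construction these are all the vertices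
of the third class, and none.) We prove that `H` has at most `5/54 n^3` edges, as conjectured for
all `K_4^3`-free 3-graphs. Nothing is assumed on the triples with two vertices in one class and one
in another. The same holds for the fractions 3/5 and 1/4 and for 11/20 and 1/10, and all this is
deduced from an inequality for all `K_4^3`-free 3-graphs and all partitions into three classes. The
proof is a flag algebra computation of order five for coloured 3-graphs, checked by the kernel.
-/

set_option autoImplicit false
open Finset

namespace Pool.Agent.Results.MP_466853_co.TuranLikePartition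

variable {n : ℕ}

/-- The 3-graph `H` has no four vertices spanning all four triples. -/
def K43Free (H : Finset (Finset (Fin n))) : Prop :=
  ∀ S : Finset (Fin n), S.card = 4 → ∃ T ⊆ S, T.card = 3 ∧ T ∉ H

/-- The number of vertices `z` of the third class with `{x, y, z}` an edge (`x` and `y` are in
different classes of `c`). -/
def transversalDegree (H : Finset (Finset (Fin n))) (c : Fin n → Fin 3) (x y : Fin n) : ℕ :=
  (univ.filter fun z => (c z ≠ c x ∧ c z ≠ c y) ∧ {x, y, z} ∈ H).card

/-- The number of vertices of the third class. -/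
def thirdClass (c : Fin n → Fin 3) (x y : Fin n) : ℕ :=
  (univ.filter fun z => c z ≠ c x ∧ c z ≠ c y).card

/-- The number of vertices `z` of the class of `x` with `{x, y, z}` an edge (`x` and `y` are in the
same class). -/
def innerDegree (H : Finset (Finset (Fin n))) (c : Fin n → Fin 3) (x y : Fin n) : ℕ :=
  (univ.filter fun z => c z = c x ∧ {x, y, z} ∈ H).card

/-- The number of vertices of the class of `x`. -/
def ownClass (c : Fin n → Fin 3) (x : Fin n) : ℕ := (univ.filter fun z => c z = c x).card

/-- The conditions with fractions `a / b` and `a' / b'`: any two vertices of different classes form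
an edge with at least `a / b` of the vertices of the third class, any two vertices of the same class
form an edge with at most `a' / b'` of the vertices of this class. -/
def TuranLike (H : Finset (Finset (Fin n))) (c : Fin n → Fin 3) (a b a' b' : ℕ) : Prop :=
  (∀ x y, c x ≠ c y → a * thirdClass c x y ≤ b * transversalDegree H c x y) ∧
  ∀ x y, x ≠ y → c x = c y → b' * innerDegree H c x y ≤ a' * ownClass c x

/-- The total violation of these conditions, summed over all ordered pairs of vertices
(the differences are 0 if they are negative). -/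
def violation (H : Finset (Finset (Fin n))) (c : Fin n → Fin 3) (a b a' b' : ℕ) : ℕ :=
  ∑ x, ∑ y, if c x = c y then b' * innerDegree H c x y - a' * ownClass c x
    else a * thirdClass c x y - b * transversalDegree H c x y

open Pool.Agent.Y439.Col

theorem dfc_eq (H : Finset (Finset (Fin n))) (c : Fin n → Fin 3) (p q r s : ℕ) :
    ∑ x, ∑ y, dfc p q r s (fun v => (c v : ℕ)) (tri H) x y = violation H c q (p + q) r (r + s) := by
  unfold violation dfc
  refine sum_congr rfl fun x _ => sum_congr rfl fun y _ => ?_
  have e1 : din (fun v => (c v : ℕ)) (tri H) x y = innerDegree H c x y := by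
    unfold din innerDegree tri
    rw [card_filter]
    refine sum_congr rfl fun z _ => ?_
    simp only [Fin.val_inj]
    split_ifs <;> simp_all
  have e2 : vin (fun v => (c v : ℕ)) x = ownClass c x := by
    unfold vin ownClass
    rw [card_filter]
    refine sum_congr rfl fun z _ => ?_
    simp only [Fin.val_inj]
  have e3 : dth (fun v => (c v : ℕ)) (tri H) x y = transversalDegree H c x y := by
    unfold dth transversalDegree tri
    rw [card_filter]
    refine sum_congr rfl fun z _ => ?_
    simp only [Ne, Fin.val_inj]
    split_ifs <;> simp_all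
  have e4 : vth (fun v => (c v : ℕ)) x y = thirdClass c x y := by
    unfold vth thirdClass
    rw [card_filter]
    refine sum_congr rfl fun z _ => ?_
    simp only [Ne, Fin.val_inj]
  simp only [Fin.val_inj, e1, e2, e3, e4]

theorem violation_zero {H : Finset (Finset (Fin n))} (h3 : ∀ e ∈ H, e.card = 3)
    {c : Fin n → Fin 3} {a b a' b' : ℕ} (h : TuranLike H c a b a' b') :
    violation H c a b a' b' = 0 := by
  unfold violation
  refine sum_eq_zero fun x _ => sum_eq_zero fun y _ => ?_
  split_ifs with hxy
  · by_cases e : x = y
    · subst e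
      have : innerDegree H c x x = 0 := by
        unfold innerDegree
        rw [card_eq_zero, filter_eq_empty_iff]
        rintro z _ ⟨_, hz⟩
        exact (distinct_of_mem h3 hz).1 rfl
      rw [this]
      simp
    · exact Nat.sub_eq_zero_of_le (h.2 x y e hxy)
  · exact Nat.sub_eq_zero_of_le (h.1 x y hxy)

theorem edges_of {H : Finset (Finset (Fin n))} (h3 : ∀ e ∈ H, e.card = 3) (W T C D : ℕ)
    (hW : 0 < W) (hC : 3 * T ≤ C * W)
    (h : 90 * W * (Fintype.card (Fin n) ^ 2 * ∑ a, ∑ b, ∑ d, tri H a b d) ≤
      50 * W * Fintype.card (Fin n) ^ 5 + 30 * (T * (Fintype.card (Fin n) ^ 2 * D))) :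
    54 * H.card ≤ 5 * n ^ 3 + C * D := by
  rw [Fintype.card_fin] at h
  rcases Nat.eq_zero_or_pos n with h0 | h0
  · have : H.card = 0 := by
      rw [card_eq_zero, eq_empty_iff_forall_notMem]
      intro e he
      have h1 := h3 e he
      have h2 := card_le_univ e
      rw [Fintype.card_fin] at h2
      omega
    rw [this]
    exact Nat.zero_le _
  · have h6 := six_card_le h3
    set S := ∑ a, ∑ b, ∑ d, tri H a b d with hS
    have hn2 : 0 < n ^ 2 := by positivity
    have h7 : n ^ 2 * (90 * W * S) ≤ n ^ 2 * (50 * W * n ^ 3 + 30 * (T * D)) := by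
      calc n ^ 2 * (90 * W * S) = 90 * W * (n ^ 2 * S) := by ring
        _ ≤ _ := h
        _ = _ := by ring
    have h8 := Nat.le_of_mul_le_mul_left h7 hn2
    have h9 : 10 * W * (54 * H.card) ≤ 10 * W * (5 * n ^ 3 + C * D) := by
      calc 10 * W * (54 * H.card) = 90 * W * (6 * H.card) := by ring
        _ ≤ 90 * W * S := Nat.mul_le_mul_left _ h6
        _ ≤ 50 * W * n ^ 3 + 30 * (T * D) := h8
        _ = 50 * W * n ^ 3 + 10 * D * (3 * T) := by ring
        _ ≤ 50 * W * n ^ 3 + 10 * D * (C * W) := Nat.add_le_add_left (Nat.mul_le_mul_left _ hC) _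
        _ = _ := by ring
    exact Nat.le_of_mul_le_mul_left h9 (by positivity)

/-- Let `H` be a `K_4^3`-free 3-graph on `n` vertices and `c` a division of its vertices into three
classes. Then `54 |H|` is at most `5 n^3 + 29 X`, `5 n^3 + 21 Y` and `5 n^3 + 23 Z`, where `X, Y, Z`
are the total violations of the conditions with the fractions `2/3, 1/3`, with `3/5, 1/4` and with
`11/20, 1/10`. In particular `54 |H| ≤ 5 n^3` if one of the three pairs of conditions holds. -/
theorem result (n : ℕ) (H : Finset (Finset (Fin n))) (h3 : ∀ e ∈ H, e.card = 3) (hK : K43Free H)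
    (c : Fin n → Fin 3) :
    54 * H.card ≤ 5 * n ^ 3 + 29 * violation H c 2 3 1 3 ∧
    54 * H.card ≤ 5 * n ^ 3 + 21 * violation H c 3 5 1 4 ∧
    54 * H.card ≤ 5 * n ^ 3 + 23 * violation H c 11 20 1 10 ∧
    (TuranLike H c 2 3 1 3 ∨ TuranLike H c 3 5 1 4 ∨ TuranLike H c 11 20 1 10 →
      54 * H.card ≤ 5 * n ^ 3) := by
  have hc3 : ∀ x, ((c x : Fin 3) : ℕ) < 3 := fun x => (c x).isLt
  have q1 : 54 * H.card ≤ 5 * n ^ 3 + 29 * violation H c 2 3 1 3 := by
    have h := U1.final (fun v => (c v : ℕ)) hc3 (tri H) (tri_le H) (tri_s1 H) (tri_s2 H)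
      (tri_k4 h3 hK)
    rw [dfc_eq] at h
    exact edges_of h3 _ _ _ _ (by norm_num) (by norm_num) h
  have q2 : 54 * H.card ≤ 5 * n ^ 3 + 21 * violation H c 3 5 1 4 := by
    have h := U2.final (fun v => (c v : ℕ)) hc3 (tri H) (tri_le H) (tri_s1 H) (tri_s2 H)
      (tri_k4 h3 hK)
    rw [dfc_eq] at h
    exact edges_of h3 _ _ _ _ (by norm_num) (by norm_num) h
  have q3 : 54 * H.card ≤ 5 * n ^ 3 + 23 * violation H c 11 20 1 10 := by
    have h := U3.final (fun v => (c v : ℕ)) hc3 (tri H) (tri_le H) (tri_s1 H) (tri_s2 H)
      (tri_k4 h3 hK)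
    rw [dfc_eq] at h
    exact edges_of h3 _ _ _ _ (by norm_num) (by norm_num) h
  refine ⟨q1, q2, q3, ?_⟩
  rintro (h | h | h)
  · rwa [violation_zero h3 h, Nat.mul_zero, Nat.add_zero] at q1
  · rwa [violation_zero h3 h, Nat.mul_zero, Nat.add_zero] at q2
  · rwa [violation_zero h3 h, Nat.mul_zero, Nat.add_zero] at q3

end Pool.Agent.Results.MP_466853_co.TuranLikePartition
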